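import Pool.Agent.Helper82.FP.Fin

/-! The kernel of the linear programming bound, as a positive definite kernel (real weights). -/

set_option autoImplicit false

open MvPolynomial Finset

namespace Pool.Agent.Helper84.WIN

open Pool.Agent.Helper82.FP

noncomputable section

variable {D : ℕ}

/-- Gram inequality with real weights -/
lemma gram_sq_w {ι κ : Type*} [Fintype ι] (I : Finset κ) (w : κ → ℝ) (hw : ∀ c ∈ I, 0 ≤ w c)
    (y : κ → ι → ℝ) (t : ι → ℝ) :
    (∑ p, t p * ∑ c ∈ I, w c * (y c p * y c p)) ^ 2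
      ≤ (I.card : ℝ) * ∑ p, ∑ q, t p * t q * (∑ c ∈ I, w c * (y c p * y c q)) ^ 2 := by
  classical
  have h1 : ∑ p, t p * ∑ c ∈ I, w c * (y c p * y c p) =
      ∑ c ∈ I, w c * ∑ p, t p * (y c p * y c p) := by
    simp only [Finset.mul_sum]
    rw [Finset.sum_comm]
    refine Finset.sum_congr rfl fun c _ => Finset.sum_congr rfl fun p _ => ?_
    ring
  have h2 : ∑ p, ∑ q, t p * t q * (∑ c ∈ I, w c * (y c p * y c q)) ^ 2
      = ∑ c ∈ I, ∑ c' ∈ I, w c * w c' * (∑ p, t p * (y c p * y c' p)) ^ 2 := by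
    have e1 : ∀ p q : ι, t p * t q * (∑ c ∈ I, w c * (y c p * y c q)) ^ 2
        = ∑ c ∈ I, ∑ c' ∈ I, w c * w c' *
          ((t p * (y c p * y c' p)) * (t q * (y c q * y c' q))) := by
      intro p q
      rw [pow_two, Finset.sum_mul_sum, Finset.mul_sum]
      apply Finset.sum_congr rfl
      intro c _
      rw [Finset.mul_sum]
      apply Finset.sum_congr rfl
      intro c' _
      ring
    have e2 : ∀ c c' : κ, w c * w c' * (∑ p, t p * (y c p * y c' p)) ^ 2
        = ∑ p, ∑ q, w c * w c' * ((t p * (y c p * y c' p)) * (t q * (y c q * y c' q))) := by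
      intro c c'
      rw [pow_two, Finset.sum_mul_sum, Finset.mul_sum]
      apply Finset.sum_congr rfl
      intro p _
      rw [Finset.mul_sum]
    simp only [e1, e2]
    rw [Finset.sum_congr rfl (fun p _ => Finset.sum_comm), Finset.sum_comm]
    apply Finset.sum_congr rfl
    intro c _
    rw [Finset.sum_congr rfl (fun p _ => Finset.sum_comm), Finset.sum_comm]
  rw [h1, h2]
  have h3 : (∑ c ∈ I, w c * ∑ p, t p * (y c p * y c p)) ^ 2
      ≤ (I.card : ℝ) * ∑ c ∈ I, (w c * ∑ p, t p * (y c p * y c p)) ^ 2 := sq_sum_le_card_mul_sum_sq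
  refine h3.trans ?_
  apply mul_le_mul_of_nonneg_left _ (by positivity)
  apply Finset.sum_le_sum
  intro c hc
  have h4 : (w c * ∑ p, t p * (y c p * y c p)) ^ 2 =
      w c * w c * (∑ p, t p * (y c p * y c p)) ^ 2 := by ring
  rw [h4]
  exact Finset.single_le_sum (f := fun c' => w c * w c' * (∑ p, t p * (y c p * y c' p)) ^ 2)
    (fun c' hc' => mul_nonneg (mul_nonneg (hw c hc) (hw c' hc')) (sq_nonneg _)) hc

section gen

variable {m : ℕ} {ι : Type*} [Fintype ι] (S : Lad D m ι)

/-- first half, weighted -/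
lemma sumB_w (hD : 3 ≤ D) (b : ℕ → ℝ) (hb : ∀ k, 0 ≤ b k) (K : ℕ) (hbK : b (K + 1) = 0) (s' : ℝ)
    (hr0 : s' * b 0 ≤ b 1 * cc D m 0 ^ 2 / kap D m)
    (hr : ∀ k, s' * b (k + 1) ≤ b k / ((m : ℝ) + (k + 1 : ℕ)) + b (k + 2) * cc D m (k + 1) ^ 2 / kap D (m + (k + 1)))
    (t : ι → ℝ) :
    0 ≤ ∑ p, ∑ q, t p * t q * ((S.xx p q - s') * S.M b K p q ^ 2) := by
  have h : ∑ p, ∑ q, t p * t q * ((S.xx p q - s') * S.M b K p q ^ 2)
      = ∑ c ∈ (Finset.range (K + 1)).sigma (fun k => Mon D (m + k)), (b c.1 * mf c.2) *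
        ∑ p, ∑ q, (t p * coeff c.2 (S.f p c.1)) * (t q * coeff c.2 (S.f q c.1)) *
          ((S.xx p q - s') * S.M b K p q) := by
    have e1 : ∀ p q : ι, t p * t q * ((S.xx p q - s') * S.M b K p q ^ 2)
        = ∑ c ∈ (Finset.range (K + 1)).sigma (fun k => Mon D (m + k)), (b c.1 * mf c.2) *
          ((t p * coeff c.2 (S.f p c.1)) * (t q * coeff c.2 (S.f q c.1)) *
            ((S.xx p q - s') * S.M b K p q)) := by
      intro p q
      have e2 : t p * t q * ((S.xx p q - s') * S.M b K p q ^ 2) =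
          S.M b K p q * (t p * t q * ((S.xx p q - s') * S.M b K p q)) := by ring
      rw [e2]
      conv_lhs => rw [S.M_expand b K p q, Finset.sum_mul]
      apply Finset.sum_congr rfl
      intro c _
      rw [S.M_expand b K p q]
      ring
    simp only [e1]
    rw [Finset.sum_congr rfl (fun p _ => Finset.sum_comm), Finset.sum_comm]
    apply Finset.sum_congr rfl
    intro c _
    rw [Finset.mul_sum]
    apply Finset.sum_congr rfl
    intro p _
    rw [Finset.mul_sum]
  rw [h]
  apply Finset.sum_nonneg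
  intro c _
  apply mul_nonneg (mul_nonneg (hb _) (mf_pos _).le)
  exact S.matA hD b hb K hbK s' hr0 hr (fun p => t p * coeff c.2 (S.f p c.1))

/-- second half, weighted -/
lemma trace_le_w (b : ℕ → ℝ) (hb : ∀ k, 0 ≤ b k) (K k0 : ℕ) (hb0 : ∀ k, k < k0 → b k = 0)
    (t : ι → ℝ) :
    (∑ p, t p * S.M b K p p) ^ 2
      ≤ ((∑ k ∈ Finset.Icc k0 K, (Mon D (m + k)).card : ℕ) : ℝ) *
        ∑ p, ∑ q, t p * t q * S.M b K p q ^ 2 := by
  have h1 : ∀ p q : ι, S.M b K p q = ∑ c ∈ (Finset.Icc k0 K).sigma (fun k => Mon D (m + k)),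
      (b c.1 * mf c.2) * (coeff c.2 (S.f p c.1) * coeff c.2 (S.f q c.1)) := by
    intro p q
    rw [S.M_expand]
    symm
    apply Finset.sum_subset
    · intro c hc
      rw [Finset.mem_sigma] at hc ⊢
      refine ⟨?_, hc.2⟩
      have := Finset.mem_Icc.mp hc.1
      exact Finset.mem_range.mpr (by omega)
    · intro c hc hn
      have : c.1 < k0 := by
        by_contra h
        apply hn
        rw [Finset.mem_sigma] at hc ⊢
        refine ⟨?_, hc.2⟩
        have := Finset.mem_range.mp hc.1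
        exact Finset.mem_Icc.mpr ⟨by omega, by omega⟩
      rw [hb0 _ this, zero_mul, zero_mul]
  have h2 := gram_sq_w (ι := ι) ((Finset.Icc k0 K).sigma (fun k => Mon D (m + k)))
    (fun c => b c.1 * mf c.2) (fun c _ => mul_nonneg (hb _) (mf_pos _).le)
    (fun c p => coeff c.2 (S.f p c.1)) t
  rw [Finset.card_sigma] at h2
  simp only [h1]
  exact h2

end gen

/-- the ladder data of a finite family of unit vectors -/
def famLad (hD : 3 ≤ D) (m n : ℕ) {N : Type} [Fintype N] (x : N → (Fin D → ℝ))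
    (hunit : ∀ i, ∑ l, x i l ^ 2 = 1)
    (u : (Fin D → ℝ) → Fin n → MvPolynomial (Fin D) ℝ) (hu : ∀ x a, IsH m (u x a))
    (hu0 : ∀ x a, Dx x (u x a) = 0) : Lad D m (N × Fin n) where
  x := fun p => x p.1
  f := fun p k => psi m (x p.1) (u (x p.1) p.2) k
  hH := fun _ k => psi_IsH hD (hu _ _) _ k
  hA := fun _ _ => rfl
  hD := fun _ k => Dx_psi_succ hD _ (hunit _) (hu0 _ _) k

/-- **The kernel of the linear programming bound.** -/
theorem exists_kernel (D m lo T : ℕ) (hD : 3 ≤ D) (hm2 : 2 ≤ m) (hm : m ≤ lo) (hlo : lo ≤ T)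
    (b : ℕ → ℝ) (hb : ∀ j, 0 ≤ b j) (hpos : ∃ j, 0 < b j)
    (hsupp : ∀ j, b j ≠ 0 → lo ≤ j ∧ j ≤ T) (s s' : ℝ) (hs : s < s') (hs1 : s ≤ 1)
    (hrec : ∀ j, lo ≤ j → j ≤ T → s' * b j ≤ b (j - 1) / j + b (j + 1) * cc D m (j - m) ^ 2 / kap D j)
    (hn0 : (0 : ℝ) < (Nat.choose (D + m - 1) m : ℝ) - Nat.choose (D + m - 2) (m - 1)
      - Nat.choose (D + m - 3) (m - 2)) :
    ∃ T0 : (Fin D → ℝ) → (Fin D → ℝ) → ℝ, (∀ x y, T0 x y = T0 y x) ∧
      (∀ (N : Type) [Fintype N] (x : N → (Fin D → ℝ)), (∀ i, ∑ l, x i l ^ 2 = 1) →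
        ∀ w : N → ℝ, 0 ≤ ∑ i, ∑ j, w i * w j * T0 (x i) (x j)) ∧
      (∀ x y, ∑ l, x l * y l ≤ s → T0 x y ≤ -1) ∧
      (∀ x, ∑ l, x l ^ 2 = 1 → (1 + T0 x x) * ((s' - s) *
        ((Nat.choose (D + m - 1) m : ℝ) - Nat.choose (D + m - 2) (m - 1)
          - Nat.choose (D + m - 3) (m - 2))) ≤
        (1 - s) * ∑ j ∈ Finset.Icc lo T, (Nat.choose (D + j - 1) j : ℝ)) := by
  classical
  set n : ℕ := (D + m - 1).choose m - ((D + m - 2).choose (m - 1) + (D + m - 3).choose (m - 2)) with hn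
  have hnR : ((Nat.choose (D + m - 1) m : ℝ) - Nat.choose (D + m - 2) (m - 1)
      - Nat.choose (D + m - 3) (m - 2)) ≤ (n : ℝ) := by
    have : (D + m - 1).choose m ≤ n + ((D + m - 2).choose (m - 1) + (D + m - 3).choose (m - 2)) := by omega
    have h2 : ((D + m - 1).choose m : ℝ) ≤ n + (((D + m - 2).choose (m - 1) : ℝ) + (D + m - 3).choose (m - 2)) := by
      exact_mod_cast this
    linarith
  have hnpos : (0 : ℝ) < n := hn0.trans_le hnR
  -- families
  choose u hu hu0 huo using fun x : Fin D → ℝ => exists_family (D := D) m hm2 x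
  have hu0' : ∀ x a, Dx x (u x a) = 0 := fun x a => by rw [Dx_apply]; exact hu0 x a
  -- shifted weights
  obtain ⟨K, hK⟩ : ∃ K, T = m + K := ⟨T - m, by omega⟩
  obtain ⟨k0, hk0⟩ : ∃ k0, lo = m + k0 := ⟨lo - m, by omega⟩
  set β : ℕ → ℝ := fun k => b (m + k) with hβ
  have hβn : ∀ k, 0 ≤ β k := fun k => hb _
  have hβK : β (K + 1) = 0 := by
    by_contra h
    have := hsupp _ h
    omega
  have hβ0 : ∀ k, k < k0 → β k = 0 := by
    intro k hk
    by_contra h
    have := hsupp _ h
    omega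
  have hkapn : ∀ j, 0 < kap D j := kap_pos hD
  have hr0 : s' * β 0 ≤ β 1 * cc D m 0 ^ 2 / kap D m := by
    have hR : 0 ≤ β 1 * cc D m 0 ^ 2 / kap D m :=
      div_nonneg (mul_nonneg (hβn _) (sq_nonneg _)) (hkapn _).le
    by_cases h : β 0 = 0
    · rw [h, mul_zero]; exact hR
    · have h1 := hsupp _ h
      have h2 := hrec m (by omega) (by omega)
      have h3 : b (m - 1) = 0 := by
        by_contra h0
        have := hsupp _ h0
        omega
      rw [h3, zero_div, zero_add, Nat.sub_self] at h2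
      exact h2
  have hr : ∀ k, s' * β (k + 1) ≤ β k / ((m : ℝ) + (k + 1 : ℕ))
      + β (k + 2) * cc D m (k + 1) ^ 2 / kap D (m + (k + 1)) := by
    intro k
    by_cases h : β (k + 1) = 0
    · rw [h, mul_zero]
      apply add_nonneg
      · exact div_nonneg (hβn _) (by positivity)
      · exact div_nonneg (mul_nonneg (hβn _) (sq_nonneg _)) (hkapn _).le
    · have h1 := hsupp _ h
      have h2 := hrec (m + (k + 1)) (by omega) (by omega)
      have e1 : m + (k + 1) - 1 = m + k := by omega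
      have e2 : m + (k + 1) - m = k + 1 := by omega
      rw [e1, e2] at h2
      push_cast at h2 ⊢
      exact h2
  -- the constant B
  set B : ℝ := ∑ k ∈ Finset.range (K + 1), β k * NN D m k with hB
  have hBpos : 0 < B := by
    obtain ⟨j, hj⟩ := hpos
    have h1 := hsupp j hj.ne'
    have h2 : (j - m) ∈ Finset.range (K + 1) := Finset.mem_range.mpr (by omega)
    have h3 : β (j - m) * NN D m (j - m) ≤ B :=
      Finset.single_le_sum (f := fun k => β k * NN D m k)
        (fun k _ => mul_nonneg (hβn k) (NN_pos hD m k).le) h2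
    have h4 : β (j - m) = b j := by
      show b (m + (j - m)) = b j
      congr 1; omega
    rw [h4] at h3
    exact lt_of_lt_of_le (mul_pos hj (NN_pos hD m _)) h3
  -- the kernel
  set g : (Fin D → ℝ) → (Fin D → ℝ) → Fin n → Fin n → ℝ := fun x y a a' =>
    ∑ k ∈ Finset.range (K + 1), β k * ip (m + k) (psi m x (u x a) k) (psi m y (u y a') k) with hg
  set G : (Fin D → ℝ) → (Fin D → ℝ) → ℝ := fun x y => ∑ a, ∑ a', g x y a a' ^ 2 with hG
  have hG0 : ∀ x y, 0 ≤ G x y := fun x y =>
    Finset.sum_nonneg fun a _ => Finset.sum_nonneg fun a' _ => sq_nonneg _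
  have hgdiag : ∀ x, ∑ l, x l ^ 2 = 1 → ∀ a a', g x x a a' = if a = a' then B else 0 := by
    intro x hx a a'
    show ∑ k ∈ Finset.range (K + 1), β k * ip (m + k) (psi m x (u x a) k) (psi m x (u x a') k) = _
    have : ∀ k, β k * ip (m + k) (psi m x (u x a) k) (psi m x (u x a') k)
        = if a = a' then β k * NN D m k else 0 := by
      intro k
      rw [ip_psi hD x hx (hu _ _) (hu _ _) (hu0' _ _) k, huo]
      split_ifs <;> ring
    rw [Finset.sum_congr rfl (fun k _ => this k)]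
    split_ifs
    · rfl
    · exact Finset.sum_const_zero
  have hGdiag : ∀ x, ∑ l, x l ^ 2 = 1 → G x x = n * B ^ 2 := by
    intro x hx
    show ∑ a, ∑ a', g x x a a' ^ 2 = _
    have : ∀ a : Fin n, ∑ a', g x x a a' ^ 2 = B ^ 2 := by
      intro a
      rw [Finset.sum_congr rfl (fun a' _ => by rw [hgdiag x hx a a'])]
      simp
    rw [Finset.sum_congr rfl (fun a _ => this a)]
    simp
  have hgsymm : ∀ x y a a', g x y a a' = g y x a' a := by
    intro x y a a'
    show ∑ k ∈ Finset.range (K + 1), β k * ip (m + k) (psi m x (u x a) k) (psi m y (u y a') k) =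
      ∑ k ∈ Finset.range (K + 1), β k * ip (m + k) (psi m y (u y a') k) (psi m x (u x a) k)
    refine Finset.sum_congr rfl fun k _ => ?_
    congr 1
    rw [ip_def, ip_def]
    refine Finset.sum_congr rfl fun α _ => ?_
    ring
  have hGsymm : ∀ x y, G x y = G y x := by
    intro x y
    show ∑ a, ∑ a', g x y a a' ^ 2 = ∑ a, ∑ a', g y x a a' ^ 2
    rw [Finset.sum_comm]
    refine Finset.sum_congr rfl fun a' _ => Finset.sum_congr rfl fun a _ => ?_
    rw [hgsymm]
  -- number of coordinates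
  set H : ℝ := ∑ j ∈ Finset.Icc lo T, (Nat.choose (D + j - 1) j : ℝ) with hH
  have hcard : ((∑ k ∈ Finset.Icc k0 K, (Mon D (m + k)).card : ℕ) : ℝ) = H := by
    rw [hH, hk0, hK]
    push_cast
    rw [← Finset.map_add_left_Icc k0 K m, Finset.sum_map]
    apply Finset.sum_congr rfl
    intro k _
    rw [card_Mon]
    simp
  have hHpos : 0 < H := by
    have h1 : lo ∈ Finset.Icc lo T := Finset.mem_Icc.mpr ⟨le_rfl, hlo⟩
    have h2 : (Nat.choose (D + lo - 1) lo : ℝ) ≤ H :=
      Finset.single_le_sum (f := fun j => (Nat.choose (D + j - 1) j : ℝ))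
        (fun j _ => by positivity) h1
    have h3 : 0 < Nat.choose (D + lo - 1) lo := Nat.choose_pos (by omega)
    have h4 : (0 : ℝ) < (Nat.choose (D + lo - 1) lo : ℝ) := by exact_mod_cast h3
    exact h4.trans_le h2
  have hs'' : 0 < s' - s := by linarith
  -- the two inequalities
  have key : ∀ (N : Type) [Fintype N] (x : N → (Fin D → ℝ)), (∀ i, ∑ l, x i l ^ 2 = 1) →
      ∀ w : N → ℝ, (s' - s) * ((n * B) * ∑ i, w i) ^ 2 ≤
        H * ∑ i, ∑ j, w i * w j * ((∑ l, x i l * x j l - s) * G (x i) (x j)) := by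
    intro N _ x hunit w
    set S := famLad hD m n x hunit u hu hu0' with hS
    have h1 := sumB_w S hD β hβn K hβK s' hr0 hr (fun p => w p.1)
    have h2 := trace_le_w S β hβn K k0 hβ0 (fun p => w p.1)
    have hMg : ∀ (i j : N) (a a' : Fin n), S.M β K (i, a) (j, a') = g (x i) (x j) a a' :=
      fun i j a a' => rfl
    have hxx : ∀ (i j : N) (a a' : Fin n), S.xx (i, a) (j, a') = ∑ l, x i l * x j l :=
      fun i j a a' => rfl
    have e1 : ∑ p : N × Fin n, ∑ q : N × Fin n, (fun p => w p.1) p * (fun p => w p.1) q *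
        ((S.xx p q - s') * S.M β K p q ^ 2) =
        ∑ i, ∑ j, w i * w j * ((∑ l, x i l * x j l - s') * G (x i) (x j)) := by
      rw [Fintype.sum_prod_type]
      refine Finset.sum_congr rfl fun i _ => ?_
      have : ∀ a : Fin n, ∑ q : N × Fin n, (fun p : N × Fin n => w p.1) (i, a) *
          (fun p : N × Fin n => w p.1) q * ((S.xx (i, a) q - s') * S.M β K (i, a) q ^ 2) =
          ∑ j, ∑ a' : Fin n, w i * w j * ((∑ l, x i l * x j l - s') * g (x i) (x j) a a' ^ 2) := by
        intro a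
        rw [Fintype.sum_prod_type]
        refine Finset.sum_congr rfl fun j _ => Finset.sum_congr rfl fun a' _ => ?_
        rw [hMg, hxx]
      rw [Finset.sum_congr rfl (fun a _ => this a), Finset.sum_comm]
      refine Finset.sum_congr rfl fun j _ => ?_
      show _ = w i * w j * ((∑ l, x i l * x j l - s') * ∑ a, ∑ a', g (x i) (x j) a a' ^ 2)
      rw [Finset.mul_sum, Finset.mul_sum]
      refine Finset.sum_congr rfl fun a _ => ?_
      rw [Finset.mul_sum, Finset.mul_sum]
    have e2 : ∑ p : N × Fin n, ∑ q : N × Fin n, (fun p => w p.1) p * (fun p => w p.1) q *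
        S.M β K p q ^ 2 = ∑ i, ∑ j, w i * w j * G (x i) (x j) := by
      rw [Fintype.sum_prod_type]
      refine Finset.sum_congr rfl fun i _ => ?_
      have : ∀ a : Fin n, ∑ q : N × Fin n, (fun p : N × Fin n => w p.1) (i, a) *
          (fun p : N × Fin n => w p.1) q * S.M β K (i, a) q ^ 2 =
          ∑ j, ∑ a' : Fin n, w i * w j * g (x i) (x j) a a' ^ 2 := by
        intro a
        rw [Fintype.sum_prod_type]
        refine Finset.sum_congr rfl fun j _ => Finset.sum_congr rfl fun a' _ => ?_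
        rw [hMg]
      rw [Finset.sum_congr rfl (fun a _ => this a), Finset.sum_comm]
      refine Finset.sum_congr rfl fun j _ => ?_
      show _ = w i * w j * ∑ a, ∑ a', g (x i) (x j) a a' ^ 2
      rw [Finset.mul_sum]
      refine Finset.sum_congr rfl fun a _ => ?_
      rw [Finset.mul_sum]
    have e3 : ∑ p : N × Fin n, (fun p => w p.1) p * S.M β K p p = (n * B) * ∑ i, w i := by
      rw [Fintype.sum_prod_type]
      have : ∀ i : N, ∑ a : Fin n, (fun p : N × Fin n => w p.1) (i, a) *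
          S.M β K (i, a) (i, a) = (n * B) * w i := by
        intro i
        rw [Finset.sum_congr rfl (fun a _ => by rw [hMg, hgdiag _ (hunit i) a a, if_pos rfl])]
        simp
        ring
      rw [Finset.sum_congr rfl (fun i _ => this i), ← Finset.mul_sum]
    rw [e1] at h1
    rw [e2, e3, hcard] at h2
    have e4 : ∑ i, ∑ j, w i * w j * ((∑ l, x i l * x j l - s) * G (x i) (x j)) =
        ∑ i, ∑ j, w i * w j * ((∑ l, x i l * x j l - s') * G (x i) (x j)) +
        (s' - s) * ∑ i, ∑ j, w i * w j * G (x i) (x j) := by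
      rw [Finset.mul_sum, ← Finset.sum_add_distrib]
      refine Finset.sum_congr rfl fun i _ => ?_
      rw [Finset.mul_sum, ← Finset.sum_add_distrib]
      refine Finset.sum_congr rfl fun j _ => ?_
      ring
    rw [e4]
    calc (s' - s) * ((n * B) * ∑ i, w i) ^ 2
        ≤ (s' - s) * (H * ∑ i, ∑ j, w i * w j * G (x i) (x j)) :=
          mul_le_mul_of_nonneg_left h2 hs''.le
      _ = H * (0 + (s' - s) * ∑ i, ∑ j, w i * w j * G (x i) (x j)) := by ring
      _ ≤ _ := by
          apply mul_le_mul_of_nonneg_left _ hHpos.le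
          linarith
  set c : ℝ := H / ((s' - s) * (n * B) ^ 2) with hc
  have hcpos : 0 < c := by positivity
  refine ⟨fun x y => c * ((∑ l, x l * y l - s) * G x y) - 1, ?_, ?_, ?_, ?_⟩
  · intro x y
    show c * ((∑ l, x l * y l - s) * G x y) - 1 = c * ((∑ l, y l * x l - s) * G y x) - 1
    rw [hGsymm x y]
    congr 4
    exact Finset.sum_congr rfl fun l _ => mul_comm _ _
  · intro N _ x hunit w
    have h1 := key N x hunit w
    have h2 : ∑ i, ∑ j, w i * w j * (c * ((∑ l, x i l * x j l - s) * G (x i) (x j)) - 1) =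
        c * (∑ i, ∑ j, w i * w j * ((∑ l, x i l * x j l - s) * G (x i) (x j))) -
          (∑ i, w i) ^ 2 := by
      rw [sq, Finset.sum_mul_sum, Finset.mul_sum, ← Finset.sum_sub_distrib]
      refine Finset.sum_congr rfl fun i _ => ?_
      rw [Finset.mul_sum, ← Finset.sum_sub_distrib]
      refine Finset.sum_congr rfl fun j _ => ?_
      ring
    show 0 ≤ ∑ i, ∑ j, w i * w j * (c * ((∑ l, x i l * x j l - s) * G (x i) (x j)) - 1)
    rw [h2, sub_nonneg, hc, div_mul_eq_mul_div, le_div_iff₀ (by positivity)]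
    calc (∑ i, w i) ^ 2 * ((s' - s) * (n * B) ^ 2) = (s' - s) * ((n * B) * ∑ i, w i) ^ 2 := by ring
      _ ≤ _ := h1
  · intro x y hxy
    have h1 : (∑ l, x l * y l - s) * G x y ≤ 0 :=
      mul_nonpos_of_nonpos_of_nonneg (by linarith) (hG0 x y)
    have h2 : c * ((∑ l, x l * y l - s) * G x y) ≤ 0 :=
      mul_nonpos_of_nonneg_of_nonpos hcpos.le h1
    show c * ((∑ l, x l * y l - s) * G x y) - 1 ≤ -1
    linarith
  · intro x hx
    have h1 : ∑ l, x l * x l = 1 := by
      rw [← hx]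
      exact Finset.sum_congr rfl fun l _ => by ring
    show (1 + (c * ((∑ l, x l * x l - s) * G x x) - 1)) * _ ≤ _
    rw [h1, hGdiag x hx]
    have hne : s' - s ≠ 0 := hs''.ne'
    have h2 : 1 + (c * ((1 - s) * (n * B ^ 2)) - 1) = (1 - s) * H / ((s' - s) * n) := by
      have h4 : 1 + (c * ((1 - s) * (n * B ^ 2)) - 1) = c * ((1 - s) * (n * B ^ 2)) := by ring
      rw [h4, hc, div_mul_eq_mul_div, div_eq_div_iff (by positivity) (by positivity)]
      ring
    rw [h2]
    have h3 : 0 ≤ (1 - s) * H / ((s' - s) * n) := by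
      have : 0 ≤ 1 - s := by linarith
      positivity
    calc (1 - s) * H / ((s' - s) * n) * ((s' - s) * ((Nat.choose (D + m - 1) m : ℝ) -
          Nat.choose (D + m - 2) (m - 1) - Nat.choose (D + m - 3) (m - 2)))
        ≤ (1 - s) * H / ((s' - s) * n) * ((s' - s) * n) := by
          apply mul_le_mul_of_nonneg_left _ h3
          exact mul_le_mul_of_nonneg_left hnR hs''.le
      _ = _ := by field_simp

end

end Pool.Agent.Helper84.WIN
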