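import Pool.Agent.Helper47.KP.Sound

/-! Smoothing: from a possibly discontinuous positive definite kernel with a margin in the angle to
a continuous one, and a feasible solution of the `k`-point program for every `k ≥ 2`. -/

set_option autoImplicit false

open Finset
open scoped RealInnerProductSpace

namespace Pool.Agent.Helper84.WIN

open Pool.Agent.Helper47.KP

variable {d : ℕ}

/-- positive definite kernels on a set -/
def PD {X : Type} (T : X → X → ℝ) : Prop :=
  ∀ (N : Type) [Fintype N] (x : N → X) (w : N → ℝ), 0 ≤ ∑ i, ∑ j, w i * w j * T (x i) (x j)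

lemma PD.le_of_diag {X : Type} {T : X → X → ℝ} (h : PD T) (hs : ∀ x y, T x y = T y x) {lam : ℝ}
    (hd : ∀ x, T x x ≤ lam) (x y : X) : T x y ≤ lam := by
  have h1 := h (Fin 2) ![x, y] ![1, -1]
  simp only [Fin.sum_univ_two, Matrix.cons_val_zero, Matrix.cons_val_one] at h1
  have h2 := hd x
  have h3 := hd y
  have h4 := hs x y
  linarith

/-- **Smoothing.** -/
theorem smoothing {s : ℝ} (hs : 1 / 2 < s) {T0 : Sph d → Sph d → ℝ} {lam : ℝ}
    (hsymm : ∀ x y, T0 x y = T0 y x) (hpd : PD T0)
    (hneg : ∀ x y : Sph d, ⟪(x : EE d), (y : EE d)⟫ ≤ s → T0 x y ≤ -1)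
    (hdiag : ∀ x, T0 x x ≤ lam) :
    ∃ T : Sph d → Sph d → ℝ, Continuous (fun p : Sph d × Sph d => T p.1 p.2) ∧
      (∀ x y, T x y = T y x) ∧ PD T ∧
      (∀ x y : Sph d, ⟪(x : EE d), (y : EE d)⟫ ≤ 1 / 2 → T x y ≤ -1) ∧ ∀ x, T x x ≤ lam := by
  classical
  set ε : ℝ := (s - 1 / 2) / 2 with hε
  have hε0 : 0 < ε := by rw [hε]; linarith
  obtain ⟨t, -, htf, hcov⟩ := (isCompact_univ : IsCompact (Set.univ : Set (Sph d))).finite_cover_balls hε0
  lift t to Finset (Sph d) using htf
  -- partition of unity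
  set φ : Sph d → Sph d → ℝ := fun z x => max 0 (ε - dist x z) with hφ
  have hφ0 : ∀ z x, 0 ≤ φ z x := fun z x => le_max_left _ _
  have hφc : ∀ z, Continuous (φ z) := fun z =>
    continuous_const.max (continuous_const.sub (continuous_id.dist continuous_const))
  have hφpos : ∀ z x, φ z x ≠ 0 → dist x z < ε := by
    intro z x h
    by_contra h1
    apply h
    exact max_eq_left (by linarith)
  set Φ : Sph d → ℝ := fun x => ∑ z ∈ t, φ z x with hΦ
  have hΦc : Continuous Φ := continuous_finsetSum _ fun z _ => hφc z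
  have hΦpos : ∀ x, 0 < Φ x := by
    intro x
    have h1 := hcov (Set.mem_univ x)
    simp only [Set.mem_iUnion, Metric.mem_ball, exists_prop] at h1
    obtain ⟨z, hz, hxz⟩ := h1
    have h2 : φ z x ≤ Φ x := Finset.single_le_sum (f := fun z => φ z x) (fun z _ => hφ0 z x) hz
    have h3 : 0 < φ z x := lt_max_of_lt_right (by linarith)
    linarith
  set p : Sph d → Sph d → ℝ := fun z x => φ z x / Φ x with hp
  have hp0 : ∀ z x, 0 ≤ p z x := fun z x => div_nonneg (hφ0 z x) (hΦpos x).le
  have hpc : ∀ z, Continuous (p z) := fun z => (hφc z).div hΦc fun x => (hΦpos x).ne'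
  have hpsum : ∀ x, ∑ z ∈ t, p z x = 1 := by
    intro x
    show ∑ z ∈ t, φ z x / Φ x = 1
    rw [← Finset.sum_div]
    exact div_self (hΦpos x).ne'
  have hppos : ∀ z x, p z x ≠ 0 → dist x z < ε := by
    intro z x h
    apply hφpos
    intro h1
    apply h
    show φ z x / Φ x = 0
    rw [h1, zero_div]
  refine ⟨fun x y => ∑ z ∈ t, ∑ z' ∈ t, p z x * p z' y * T0 z z', ?_, ?_, ?_, ?_, ?_⟩
  · refine continuous_finsetSum _ fun z _ => continuous_finsetSum _ fun z' _ => ?_
    exact (((hpc z).comp continuous_fst).mul ((hpc z').comp continuous_snd)).mul continuous_const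
  · intro x y
    show ∑ z ∈ t, ∑ z' ∈ t, p z x * p z' y * T0 z z' = ∑ z ∈ t, ∑ z' ∈ t, p z y * p z' x * T0 z z'
    rw [Finset.sum_comm]
    refine Finset.sum_congr rfl fun z _ => Finset.sum_congr rfl fun z' _ => ?_
    rw [hsymm z' z]
    ring
  · intro N _ x w
    show 0 ≤ ∑ i, ∑ j, w i * w j * ∑ z ∈ t, ∑ z' ∈ t, p z (x i) * p z' (x j) * T0 z z'
    have h1 := hpd {z // z ∈ t} (fun z => z.1) (fun z => ∑ i, w i * p z.1 (x i))
    have h2 : ∑ i, ∑ j, w i * w j * ∑ z ∈ t, ∑ z' ∈ t, p z (x i) * p z' (x j) * T0 z z' =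
        ∑ z ∈ t, ∑ z' ∈ t, (∑ i, w i * p z (x i)) * (∑ i, w i * p z' (x i)) * T0 z z' := by
      have e1 : ∀ i j, w i * w j * ∑ z ∈ t, ∑ z' ∈ t, p z (x i) * p z' (x j) * T0 z z' =
          ∑ z ∈ t, ∑ z' ∈ t, (w i * p z (x i)) * (w j * p z' (x j)) * T0 z z' := by
        intro i j
        rw [Finset.mul_sum]
        refine Finset.sum_congr rfl fun z _ => ?_
        rw [Finset.mul_sum]
        refine Finset.sum_congr rfl fun z' _ => ?_
        ring
      simp only [e1]
      rw [Finset.sum_congr rfl (fun i _ => Finset.sum_comm), Finset.sum_comm]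
      refine Finset.sum_congr rfl fun z _ => ?_
      rw [Finset.sum_congr rfl (fun i _ => Finset.sum_comm), Finset.sum_comm]
      refine Finset.sum_congr rfl fun z' _ => ?_
      rw [Finset.sum_mul_sum, Finset.sum_mul]
      refine Finset.sum_congr rfl fun i _ => ?_
      rw [Finset.sum_mul]
    rw [h2]
    rw [← Finset.sum_coe_sort t]
    refine h1.trans (le_of_eq ?_)
    refine Finset.sum_congr rfl fun z _ => ?_
    rw [← Finset.sum_coe_sort t]
  · intro x y hxy
    show ∑ z ∈ t, ∑ z' ∈ t, p z x * p z' y * T0 z z' ≤ -1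
    have h1 : ∀ z ∈ t, ∀ z' ∈ t, p z x * p z' y * T0 z z' ≤ p z x * p z' y * (-1) := by
      intro z _ z' _
      by_cases hz : p z x = 0
      · rw [hz]; simp
      by_cases hz' : p z' y = 0
      · rw [hz']; simp
      apply mul_le_mul_of_nonneg_left _ (mul_nonneg (hp0 _ _) (hp0 _ _))
      apply hneg
      have h2 := hppos z x hz
      have h3 := hppos z' y hz'
      have e1 : ⟪(z : EE d), (z' : EE d)⟫ = ⟪(x : EE d), (y : EE d)⟫ +
          ⟪(z : EE d) - (x : EE d), (z' : EE d)⟫ + ⟪(x : EE d), (z' : EE d) - (y : EE d)⟫ := by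
        rw [inner_sub_left, inner_sub_right]; ring
      have h4 : ⟪(z : EE d) - (x : EE d), (z' : EE d)⟫ ≤ dist x z := by
        refine (real_inner_le_norm _ _).trans ?_
        have : ‖(z' : EE d)‖ = 1 := by simp
        rw [this, mul_one, dist_comm, Subtype.dist_eq, dist_eq_norm]
      have h5 : ⟪(x : EE d), (z' : EE d) - (y : EE d)⟫ ≤ dist y z' := by
        refine (real_inner_le_norm _ _).trans ?_
        have : ‖(x : EE d)‖ = 1 := by simp
        rw [this, one_mul, dist_comm, Subtype.dist_eq, dist_eq_norm]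
      rw [e1]
      have : s = 1 / 2 + 2 * ε := by rw [hε]; ring
      linarith
    calc ∑ z ∈ t, ∑ z' ∈ t, p z x * p z' y * T0 z z'
        ≤ ∑ z ∈ t, ∑ z' ∈ t, p z x * p z' y * (-1) :=
          Finset.sum_le_sum fun z hz => Finset.sum_le_sum fun z' hz' => h1 z hz z' hz'
      _ = (∑ z ∈ t, p z x) * (∑ z' ∈ t, p z' y) * (-1) := by
          rw [Finset.sum_mul_sum, Finset.sum_mul]
          refine Finset.sum_congr rfl fun z _ => ?_
          rw [Finset.sum_mul]
      _ = -1 := by rw [hpsum, hpsum]; norm_num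
  · intro x
    show ∑ z ∈ t, ∑ z' ∈ t, p z x * p z' x * T0 z z' ≤ lam
    calc ∑ z ∈ t, ∑ z' ∈ t, p z x * p z' x * T0 z z'
        ≤ ∑ z ∈ t, ∑ z' ∈ t, p z x * p z' x * lam :=
          Finset.sum_le_sum fun z _ => Finset.sum_le_sum fun z' _ =>
            mul_le_mul_of_nonneg_left (hpd.le_of_diag hsymm hdiag z z')
              (mul_nonneg (hp0 _ _) (hp0 _ _))
      _ = (∑ z ∈ t, p z x) * (∑ z' ∈ t, p z' x) * lam := by
          rw [Finset.sum_mul_sum, Finset.sum_mul]
          refine Finset.sum_congr rfl fun z _ => ?_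
          rw [Finset.sum_mul]
      _ = lam := by rw [hpsum]; norm_num

open Classical in
/-- a solution of the linear program is a solution of the `k`-point program -/
theorem feasible_of_kernel {k : ℕ} (hk : 2 ≤ k) {T : Sph d → Sph d → ℝ} {lam : ℝ}
    (hc : Continuous (fun p : Sph d × Sph d => T p.1 p.2)) (hsymm : ∀ x y, T x y = T y x)
    (hpd : PD T) (hneg : ∀ x y : Sph d, ⟪(x : EE d), (y : EE d)⟫ ≤ 1 / 2 → T x y ≤ -1)
    (hdiag : ∀ x, T x x ≤ lam) :
    IsFeasible d k (fun Q x y => if Q = ∅ then T x y else 0) lam := by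
  refine ⟨?_, ?_, ?_, ?_⟩
  · intro q _
    rcases Nat.eq_zero_or_pos q with rfl | hq
    · have : (fun p : (Fin 0 → Sph d) × Sph d × Sph d =>
          if (univ.image p.1 : Finset (Sph d)) = ∅ then T p.2.1 p.2.2 else 0) =
          fun p => T p.2.1 p.2.2 := by
        funext p
        rw [if_pos (by simp)]
      rw [this]
      exact (hc.comp continuous_snd).continuousOn
    · have : (fun p : (Fin q → Sph d) × Sph d × Sph d =>
          if (univ.image p.1 : Finset (Sph d)) = ∅ then T p.2.1 p.2.2 else 0) = fun _ => 0 := by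
        funext p
        rw [if_neg]
        intro h
        have h1 : p.1 ⟨0, hq⟩ ∈ (univ.image p.1 : Finset (Sph d)) :=
          mem_image_of_mem _ (mem_univ _)
        rw [h] at h1
        simp at h1
      rw [this]
      exact continuousOn_const
  · intro Q _ _ x y
    show (if Q = ∅ then T x y else 0) = if Q = ∅ then T y x else 0
    rw [hsymm]
  · intro Q _ _ n x c
    show 0 ≤ ∑ i, ∑ j, c i * c j * (if Q = ∅ then T (x i) (x j) else 0)
    by_cases hQ : Q = ∅
    · simp only [if_pos hQ]
      exact hpd (Fin n) x c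
    · simp [if_neg hQ]
  · intro S hS hSk hsep
    have h1 : BB k (fun Q x y => if Q = ∅ then T x y else 0) S =
        ∑ x ∈ S, ∑ y ∈ S, if ({x, y} : Finset (Sph d)) = S then T x y else 0 := by
      unfold BB
      rw [Finset.sum_eq_single_of_mem ∅]
      · refine Finset.sum_congr rfl fun x _ => Finset.sum_congr rfl fun y _ => ?_
        rw [Finset.empty_union]
        simp only [if_true]
      · rw [Finset.mem_filter]
        exact ⟨Finset.empty_mem_powerset S, by simpa using hk⟩
      · intro Q _ hQ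
        refine Finset.sum_eq_zero fun x _ => Finset.sum_eq_zero fun y _ => ?_
        simp only [if_neg hQ, ite_self]
    rw [h1]
    have hcard : 1 ≤ S.card := hS.card_pos
    rcases Nat.lt_or_ge S.card 3 with h3 | h3
    · rcases (by omega : S.card = 1 ∨ S.card = 2) with h | h
      · obtain ⟨a, rfl⟩ := Finset.card_eq_one.1 h
        simp only [Finset.sum_singleton, Finset.card_singleton]
        norm_num
        exact hdiag a
      · obtain ⟨a, b, hab, rfl⟩ := Finset.card_eq_two.1 h
        rw [Finset.sum_pair hab, Finset.sum_pair hab, Finset.sum_pair hab, h]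
        have n1 : ({a, a} : Finset (Sph d)) ≠ {a, b} := by
          intro h2
          have h3 : b ∈ ({a, a} : Finset (Sph d)) := by rw [h2]; simp
          simp at h3
          exact hab h3.symm
        have n2 : ({b, b} : Finset (Sph d)) ≠ {a, b} := by
          intro h2
          have h3 : a ∈ ({b, b} : Finset (Sph d)) := by rw [h2]; simp
          simp at h3
          exact hab h3
        rw [if_neg n1, if_neg n2, if_pos rfl, if_pos (Finset.pair_comm b a)]
        have h4 := hneg a b (hsep a (by simp) b (by simp) hab)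
        have h5 := hsymm b a
        norm_num
        linarith
    · have h4 : ∑ x ∈ S, ∑ y ∈ S, (if ({x, y} : Finset (Sph d)) = S then T x y else 0) = 0 := by
        refine Finset.sum_eq_zero fun x _ => Finset.sum_eq_zero fun y _ => ?_
        rw [if_neg]
        intro h5
        rw [← h5] at h3
        have := Finset.card_le_two (a := x) (b := y)
        omega
      rw [h4, if_neg (by omega), if_neg (by omega)]
      norm_num

end Pool.Agent.Helper84.WIN
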