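import Pool.Agent.Helper84.WIN.A
import Pool.Agent.Helper84.WIN.B
import Pool.Agent.Helper11.SB.Final

/-! The value of the `k`-point program is at most `2^(1496 d / 3765)`. -/

set_option autoImplicit false

open Finset Filter Topology
open scoped RealInnerProductSpace

namespace Pool.Agent.Helper84.WIN

open Pool.Agent.Helper47.KP

/-- the kernel on the sphere, from the finite theorem -/
theorem kernel_exp {s κ τ ν : ℝ} (hs0 : 0 ≤ s) (hs1 : s ≤ 1) (hν : 0 < ν) (hν2 : ν ≤ 1 / 2)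
    (hντ : ν < τ)
    (hcond : s * ((1 + 2 * τ) * Real.sqrt (τ * (1 + τ))) < 2 * ((τ - ν) * (1 + τ + ν)))
    (hκ : Pool.Agent.Helper93.KLA.Aup τ < 2 ^ κ * Pool.Agent.Helper93.KLA.Blo ν) :
    ∀ᶠ D : ℕ in atTop, ∃ T0 : Sph D → Sph D → ℝ, (∀ x y, T0 x y = T0 y x) ∧ PD T0 ∧
      (∀ x y : Sph D, ⟪(x : EE D), (y : EE D)⟫ ≤ s → T0 x y ≤ -1) ∧
      ∀ x, T0 x x ≤ 2 ^ (κ * D) - 1 := by
  filter_upwards [Pool.Agent.Helper93.KLA.asymp hs0 hs1 hν hν2 hντ hcond hκ,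
    eventually_ge_atTop 3] with D hD hD3
  obtain ⟨m, lo, T, b, s', hm, hmlo, hloT, hb, hpos, hsupp, hs', hrec, hch, hfin⟩ := hD
  have hmD : m < D := by
    by_contra h
    rw [Nat.choose_eq_zero_of_lt (by omega)] at hch
    simp at hch
  have h4 := Pool.Agent.Helper93.KLA.choose_le_harm hm hmD
  obtain ⟨T0, h1, h2, h3, h5⟩ := exists_kernel D m lo T hD3 hm hmlo hloT b hb hpos hsupp s s' hs'
    hs1 hrec (hch.trans_le h4)
  have hq : (0 : ℝ) < (s' - s) * ((D - 1).choose m : ℝ) := by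
    have : 0 < s' - s := by linarith
    positivity
  have hunit : ∀ x : Sph D, ∑ l, (x : EE D) l ^ 2 = 1 := by
    intro x
    have h := EuclideanSpace.real_norm_sq_eq (x : EE D)
    have hx : ‖(x : EE D)‖ = 1 := by simp
    rw [hx] at h
    rw [← h]; norm_num
  have hinner : ∀ x y : Sph D, ⟪(x : EE D), (y : EE D)⟫ = ∑ l, (x : EE D) l * (y : EE D) l := by
    intro x y
    rw [PiLp.inner_apply]
    refine Finset.sum_congr rfl fun i _ => ?_
    simp [mul_comm]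
  refine ⟨fun x y => T0 (fun l => (x : EE D) l) (fun l => (y : EE D) l), fun x y => h1 _ _, ?_,
    ?_, ?_⟩
  · intro N _ x w
    exact h2 N (fun i l => (x i : EE D) l) (fun i => hunit (x i)) w
  · intro x y hxy
    apply h3
    rw [← hinner]
    exact hxy
  · intro x
    show T0 (fun l => (x : EE D) l) (fun l => (x : EE D) l) ≤ _
    have h6 := h5 (fun l => (x : EE D) l) (hunit x)
    rcases le_or_gt (1 + T0 (fun l => (x : EE D) l) (fun l => (x : EE D) l)) 0 with h7 | h7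
    · have : (0 : ℝ) < 2 ^ (κ * D) := by positivity
      linarith
    have h8 : (1 + T0 (fun l => (x : EE D) l) (fun l => (x : EE D) l)) *
        ((s' - s) * ((D - 1).choose m : ℝ)) ≤ 2 ^ (κ * D) * ((s' - s) * ((D - 1).choose m : ℝ)) := by
      refine le_trans ?_ (h6.trans hfin)
      apply mul_le_mul_of_nonneg_left _ h7.le
      apply mul_le_mul_of_nonneg_left h4
      linarith
    have := le_of_mul_le_mul_right h8 hq
    linarith

/-- **Upper bound for the `k`-point program.** -/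
theorem feasible_exp {κ τ ν : ℝ} (hν : 0 < ν) (hν2 : ν ≤ 1 / 2) (hντ : ν < τ)
    (hcond : 1 / 2 * ((1 + 2 * τ) * Real.sqrt (τ * (1 + τ))) < 2 * ((τ - ν) * (1 + τ + ν)))
    (hκ : Pool.Agent.Helper93.KLA.Aup τ < 2 ^ κ * Pool.Agent.Helper93.KLA.Blo ν) :
    ∀ᶠ D : ℕ in atTop, ∀ k : ℕ, 2 ≤ k →
      ∃ (T : Finset (Sph D) → Sph D → Sph D → ℝ) (lam : ℝ), IsFeasible D k T lam ∧
        1 + lam ≤ 2 ^ (κ * D) := by
  obtain ⟨s, hs1, hs2, hs3⟩ : ∃ s : ℝ, 1 / 2 < s ∧ s ≤ 1 ∧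
      s * ((1 + 2 * τ) * Real.sqrt (τ * (1 + τ))) < 2 * ((τ - ν) * (1 + τ + ν)) := by
    have h1 : Tendsto (fun s : ℝ => s * ((1 + 2 * τ) * Real.sqrt (τ * (1 + τ)))) (𝓝[>] (1 / 2))
        (𝓝 (1 / 2 * ((1 + 2 * τ) * Real.sqrt (τ * (1 + τ))))) := by
      apply Tendsto.mono_left _ nhdsWithin_le_nhds
      exact (continuous_id.mul continuous_const).tendsto _
    have h2 := (h1.eventually (gt_mem_nhds hcond)).and
      ((eventually_nhdsWithin_of_eventually_nhds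
        (gt_mem_nhds (show (1 / 2 : ℝ) < 1 by norm_num))).and self_mem_nhdsWithin)
    obtain ⟨s, h3, h4, h5⟩ := h2.exists
    exact ⟨s, h5, h4.le, h3⟩
  filter_upwards [kernel_exp (by linarith : (0 : ℝ) ≤ s) hs2 hν hν2 hντ hs3 hκ] with D hD k hk
  obtain ⟨T0, h1, h2, h3, h4⟩ := hD
  obtain ⟨T, hT1, hT2, hT3, hT4, hT5⟩ := smoothing hs1 h1 h2 h3 h4
  exact ⟨_, 2 ^ (κ * D) - 1, feasible_of_kernel hk hT1 hT2 hT3 hT4 hT5, by linarith⟩

/-- at 60 degrees -/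
theorem feasible_sixty : ∀ᶠ D : ℕ in atTop, ∀ k : ℕ, 2 ≤ k →
      ∃ (T : Finset (Sph D) → Sph D → Sph D → ℝ) (lam : ℝ), IsFeasible D k T lam ∧
        1 + lam ≤ 2 ^ ((1496 / 3765 : ℝ) * D) :=
  feasible_exp (τ := 65 / 753) (ν := 1 / 251) (by norm_num) (by norm_num) (by norm_num)
    Pool.Agent.Helper93.KLA.num_cond Pool.Agent.Helper93.KLA.num_exp

end Pool.Agent.Helper84.WIN
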